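import Pool.Agent.H753R3.RP.Rapid

set_option autoImplicit false

namespace Pool.Agent.H753R3.RP

open Set Topology Filter

theorem circ_half (v : Circle) (hv : ‖(v : ℂ) - 1‖ ≤ 1) :
    ‖(v : ℂ) - 1‖ ≤ 3 / 5 * ‖((v ^ 2 : Circle) : ℂ) - 1‖ := by
  have h1 : ((v ^ 2 : Circle) : ℂ) - 1 = ((v : ℂ) - 1) * ((v : ℂ) + 1) := by
    push_cast
    ring
  have h2 := parallelogram_law_with_norm ℝ (v : ℂ) 1
  have h3 : ‖(v : ℂ)‖ = 1 := Circle.norm_coe v
  rw [h3, norm_one] at h2
  have h4 : (5 : ℝ) / 3 ≤ ‖(v : ℂ) + 1‖ := by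
    by_contra h
    push Not at h
    nlinarith [norm_nonneg ((v : ℂ) + 1), norm_nonneg ((v : ℂ) - 1)]
  rw [h1, norm_mul]
  nlinarith [norm_nonneg ((v : ℂ) - 1)]

theorem circ_pow (w : Circle) (δ : ℝ) (hδ : δ ≤ 1) : ∀ m : ℕ,
    (∀ i ≤ m, ‖((w ^ (2 ^ i) : Circle) : ℂ) - 1‖ ≤ δ) → ‖(w : ℂ) - 1‖ ≤ (3 / 5) ^ m * δ := by
  have key : ∀ m : ℕ, (∀ i ≤ m, ‖((w ^ (2 ^ i) : Circle) : ℂ) - 1‖ ≤ δ) →
      ‖(w : ℂ) - 1‖ ≤ (3 / 5) ^ m * ‖((w ^ (2 ^ m) : Circle) : ℂ) - 1‖ := by
    intro m
    induction m with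
    | zero => intro _; simp
    | succ m ih =>
      intro h
      have h1 := ih fun i hi => h i (hi.trans (Nat.le_succ m))
      have h2 := circ_half (w ^ (2 ^ m)) ((h m (Nat.le_succ m)).trans hδ)
      rw [← pow_mul, ← pow_succ] at h2
      rw [pow_succ (3 / 5 : ℝ) m, mul_assoc]
      exact h1.trans (mul_le_mul_of_nonneg_left h2 (by positivity))
  intro m h
  exact (key m h).trans (mul_le_mul_of_nonneg_left (h m le_rfl) (by positivity))

variable {G : Type} [CommGroup G] [TopologicalSpace G] [IsTopologicalGroup G]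

/-- partial products. -/
noncomputable def S (x : ℕ → G) (b : ℕ → Bool) (n : ℕ) : G :=
  ∏ k ∈ Finset.range n, if b k then x k else 1

/-- the distances to one. -/
noncomputable def u (x : ℕ → G) (χ : PontryaginDual G) (n : ℕ) : ℝ := ‖((χ (x n) : Circle) : ℂ) - 1‖

theorem circle_dist (a b : Circle) : dist a b = ‖(a : ℂ) - b‖ := by
  show dist (a : ℂ) (b : ℂ) = _
  exact dist_eq_norm _ _

theorem step (x : ℕ → G) (b : ℕ → Bool) (χ : PontryaginDual G) (n : ℕ) :
    dist (χ (S x b n)) (χ (S x b (n + 1))) ≤ u x χ n := by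
  have h : S x b (n + 1) = S x b n * (if b n then x n else 1) := Finset.prod_range_succ _ _
  rw [h, map_mul, circle_dist, Circle.coe_mul]
  have h2 : ((χ (S x b n) : Circle) : ℂ) - (χ (S x b n) : Circle) * (χ (if b n then x n else 1) : Circle)
      = (χ (S x b n) : Circle) * (1 - (χ (if b n then x n else 1) : Circle)) := by ring
  rw [h2, norm_mul, Circle.norm_coe, one_mul, norm_sub_rev]
  unfold u
  by_cases hb : b n
  · simp [hb]
  · simp [hb]

theorem summ (x : ℕ → G)
    (hx : ∀ U ∈ 𝓝 (1 : G), ∀ᶠ k in atTop, ∀ i ≤ k, x k ^ (2 ^ i) ∈ U) (χ : PontryaginDual G) :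
    Summable (u x χ) := by
  have hU : {g : G | ‖((χ g : Circle) : ℂ) - 1‖ ≤ 1} ∈ 𝓝 (1 : G) := by
    have hc : Continuous fun g : G => ‖((χ g : Circle) : ℂ) - 1‖ := by
      have : Continuous fun g : G => (χ g : Circle) := χ.continuous_toFun
      fun_prop
    have h0 : ‖((χ (1 : G) : Circle) : ℂ) - 1‖ < 1 := by
      rw [map_one]
      simp
    filter_upwards [hc.continuousAt.eventually_lt continuousAt_const h0] with g hg
    exact hg.le
  refine Summable.of_norm_bounded_eventually_nat (g := fun n => (3 / 5 : ℝ) ^ n)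
    (summable_geometric_of_lt_one (by norm_num) (by norm_num)) ?_
  filter_upwards [hx _ hU] with n hn
  have := circ_pow (χ (x n)) 1 le_rfl n fun i hi => by
    have := hn i hi
    have this' : ‖((χ (x n ^ (2 ^ i)) : Circle) : ℂ) - 1‖ ≤ 1 := this
    rw [map_pow] at this'
    exact this'
  rw [mul_one] at this
  have hu0 : 0 ≤ u x χ n := norm_nonneg _
  rw [Real.norm_eq_abs, abs_of_nonneg hu0]
  exact this

theorem exists_lim (x : ℕ → G)
    (hx : ∀ U ∈ 𝓝 (1 : G), ∀ᶠ k in atTop, ∀ i ≤ k, x k ^ (2 ^ i) ∈ U) (χ : PontryaginDual G)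
    (b : ℕ → Bool) : ∃ l : Circle, Tendsto (fun n => χ (S x b n)) atTop (𝓝 l) :=
  cauchySeq_tendsto_of_complete
    (cauchySeq_of_dist_le_of_summable _ (step x b χ) (summ x hx χ))

theorem compact_K (x : ℕ → G)
    (hx : ∀ U ∈ 𝓝 (1 : G), ∀ᶠ k in atTop, ∀ i ≤ k, x k ^ (2 ^ i) ∈ U) :
    IsCompact (insert (1 : G) (range fun p : (Σ k : ℕ, Fin (k + 1)) => x p.1 ^ (2 ^ (p.2 : ℕ)))) := by
  refine Filter.Tendsto.isCompact_insert_range_of_cofinite ?_
  intro U hU
  obtain ⟨N, hN⟩ := eventually_atTop.mp (hx U hU)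
  rw [mem_map, mem_cofinite]
  refine ((Finset.range N).sigma (fun k => (Finset.univ : Finset (Fin (k + 1))))).finite_toSet.subset ?_
  rintro ⟨k, i⟩ hp
  rw [Finset.mem_coe, Finset.mem_sigma]
  refine ⟨?_, Finset.mem_univ _⟩
  rw [Finset.mem_range]
  by_contra hk
  exact hp (hN k (not_lt.mp hk) i (Nat.lt_succ_iff.mp i.2))

theorem main [Countable G] (x : ℕ → G) (hx1 : ∀ k, x k ≠ 1)
    (hx : ∀ U ∈ 𝓝 (1 : G), ∀ᶠ k in atTop, ∀ i ≤ k, x k ^ (2 ^ i) ∈ U)
    (e : G ≃ₜ PontryaginDual (PontryaginDual G))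
    (he : ∀ (g : G) (χ : PontryaginDual G), e g χ = χ g) : False := by
  classical
  choose L hL using exists_lim x hx
  -- uniform estimate
  have hLu : ∀ χ b n, dist (χ (S x b n)) (L χ b) ≤ ∑' m, u x χ (n + m) := fun χ b n =>
    dist_le_tsum_of_dist_le_of_tendsto _ (step x b χ) (summ x hx χ) (hL χ b) n
  have hone : ∀ b, L 1 b = 1 := by
    intro b
    refine tendsto_nhds_unique (hL 1 b) ?_
    simp only [PontryaginDual.one_apply]
    exact tendsto_const_nhds
  have hmul : ∀ χ χ' b, L (χ * χ') b = L χ b * L χ' b := by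
    intro χ χ' b
    exact tendsto_nhds_unique (hL (χ * χ') b) ((hL χ b).mul (hL χ' b))
  have hcontχ : ∀ b, Continuous fun χ => L χ b := by
    intro b
    let φ : PontryaginDual G →* Circle :=
      { toFun := fun χ => L χ b, map_one' := hone b, map_mul' := fun χ χ' => hmul χ χ' b }
    refine continuous_of_continuousAt_one φ ?_
    show Tendsto φ (𝓝 1) (𝓝 (φ 1))
    rw [map_one, Metric.tendsto_nhds]
    intro ε hε
    set δ : ℝ := min 1 (ε / 4) with hδ
    have hδ0 : 0 < δ := lt_min one_pos (by positivity)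
    set K := insert (1 : G) (range fun p : (Σ k : ℕ, Fin (k + 1)) => x p.1 ^ (2 ^ (p.2 : ℕ))) with hK
    have hW : {χ : PontryaginDual G | MapsTo (fun g => χ g) K (Metric.ball (1 : Circle) δ)} ∈
        𝓝 (1 : PontryaginDual G) := by
      have ho : IsOpen {f : C(G, Circle) | MapsTo f K (Metric.ball (1 : Circle) δ)} :=
        ContinuousMap.isOpen_setOfPred_mapsTo (compact_K x hx) Metric.isOpen_ball
      have hc : Continuous (ContinuousMonoidHom.toContinuousMap :
          (G →ₜ* Circle) → C(G, Circle)) :=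
        (ContinuousMonoidHom.isInducing_toContinuousMap G Circle).continuous
      refine (ho.preimage hc).mem_nhds ?_
      intro g _
      show (1 : PontryaginDual G) g ∈ _
      rw [PontryaginDual.one_apply]
      exact Metric.mem_ball_self hδ0
    filter_upwards [hW] with χ hχ
    have hu : ∀ n, u x χ n ≤ (3 / 5) ^ n * δ := by
      intro n
      refine circ_pow (χ (x n)) δ (min_le_left _ _) n fun i hi => ?_
      have h1 : x n ^ (2 ^ i) ∈ K := Or.inr ⟨⟨n, ⟨i, Nat.lt_succ_of_le hi⟩⟩, rfl⟩
      have h2 : dist (χ (x n ^ (2 ^ i))) 1 < δ := hχ h1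
      rw [circle_dist, map_pow, Circle.coe_one] at h2
      exact h2.le
    have hd := hLu χ b 0
    have h0 : χ (S x b 0) = 1 := by
      unfold S
      simp
    rw [h0] at hd
    have hsum : ∑' m, u x χ (0 + m) ≤ ∑' m : ℕ, (3 / 5 : ℝ) ^ m * δ := by
      refine Summable.tsum_le_tsum (fun m => ?_) ?_ ?_
      · rw [zero_add]
        exact hu m
      · simpa using summ x hx χ
      · exact (summable_geometric_of_lt_one (by norm_num) (by norm_num)).mul_right δ
    rw [tsum_mul_right, tsum_geometric_of_lt_one (by norm_num) (by norm_num)] at hsum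
    have h3 : δ ≤ ε / 4 := min_le_right _ _
    rw [dist_comm]
    show dist 1 (L χ b) < ε
    have h4 : (1 - 3 / 5 : ℝ)⁻¹ * δ < ε := by
      have : (1 - 3 / 5 : ℝ)⁻¹ = 5 / 2 := by norm_num
      rw [this]
      linarith
    linarith
  have hcontb : ∀ χ, Continuous fun b => L χ b := by
    intro χ
    have hun : TendstoUniformly (fun n b => χ (S x b n)) (fun b => L χ b) atTop := by
      refine Metric.tendstoUniformly_iff.mpr ?_
      intro ε hε
      have ht : Tendsto (fun n => ∑' m, u x χ (n + m)) atTop (𝓝 0) := by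
        have := tendsto_sum_nat_add (u x χ)
        simpa only [add_comm] using this
      filter_upwards [(Metric.tendsto_nhds.mp ht ε hε)] with n hn b
      rw [dist_comm]
      refine lt_of_le_of_lt (hLu χ b n) ?_
      rw [Real.dist_eq, sub_zero] at hn
      exact lt_of_le_of_lt (le_abs_self _) hn
    refine hun.continuous (Frequently.of_forall fun n => ?_)
    have hS : Continuous fun b : ℕ → Bool => S x b n := by
      unfold S
      refine continuous_finsetProd _ fun k _ => ?_
      exact (continuous_of_discreteTopology (f := fun t : Bool => if t then x k else 1)).comp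
        (continuous_apply k)
    have : Continuous fun g : G => (χ g : Circle) := χ.continuous_toFun
    exact this.comp hS
  let ψ : (ℕ → Bool) → PontryaginDual (PontryaginDual G) := fun b =>
    ({ toFun := fun χ => L χ b, map_one' := hone b, map_mul' := fun χ χ' => hmul χ χ' b,
       continuous_toFun := hcontχ b } : PontryaginDual G →ₜ* Circle)
  have hψ : ∀ b χ, ψ b χ = L χ b := fun b χ => rfl
  obtain ⟨g, b0, hb0⟩ := nonempty_interior_of_iUnion_of_closed
    (f := fun g : G => {b : ℕ → Bool | ∀ χ : PontryaginDual G, L χ b = χ g}) (fun g => by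
      have : {b : ℕ → Bool | ∀ χ : PontryaginDual G, L χ b = χ g} =
          ⋂ χ : PontryaginDual G, {b | L χ b = χ g} := by
        ext b
        simp
      rw [this]
      exact isClosed_iInter fun χ => isClosed_eq (hcontb χ) continuous_const) (by
      rw [eq_univ_iff_forall]
      intro b
      obtain ⟨g, hg⟩ := e.surjective (ψ b)
      refine mem_iUnion.mpr ⟨g, fun χ => ?_⟩
      rw [← hψ, ← hg, he])
  have ht : Tendsto (fun n => Function.update b0 n (!b0 n)) atTop (𝓝 b0) := by
    rw [tendsto_pi_nhds]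
    intro k
    refine tendsto_const_nhds.congr' ?_
    filter_upwards [eventually_gt_atTop k] with n hn
    rw [Function.update_of_ne hn.ne]
  obtain ⟨n, hn⟩ := (ht.eventually (mem_interior_iff_mem_nhds.mp hb0)).exists
  have hn0 := interior_subset hb0
  -- the two sequences differ only at `n`
  have hrel : ∀ χ : PontryaginDual G,
      L χ (Function.update b0 n true) = χ (x n) * L χ (Function.update b0 n false) := by
    intro χ
    refine tendsto_nhds_unique (hL χ _) ?_
    refine ((hL χ (Function.update b0 n false)).const_mul (χ (x n))).congr' ?_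
    filter_upwards [eventually_gt_atTop n] with m hm
    rw [← map_mul]
    congr 1
    unfold S
    rw [← Finset.mul_prod_erase _ _ (Finset.mem_range.mpr hm),
      ← Finset.mul_prod_erase (Finset.range m)
        (fun k => if Function.update b0 n true k then x k else 1) (Finset.mem_range.mpr hm)]
    simp only [Function.update_self, Bool.false_eq_true, if_false, if_true, one_mul]
    congr 1
    refine Finset.prod_congr rfl fun k hk => ?_
    rw [Function.update_of_ne (Finset.ne_of_mem_erase hk),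
      Function.update_of_ne (Finset.ne_of_mem_erase hk)]
  have hχ : ∀ χ : PontryaginDual G, χ (x n) = 1 := by
    intro χ
    have h1 := hn χ
    have h2 := hn0 χ
    have h3 := hrel χ
    have h4 : b0 = Function.update b0 n (b0 n) := (Function.update_eq_self n b0).symm
    cases hb : b0 n
    · rw [hb] at h1 h4
      rw [h4] at h2
      rw [Bool.not_false] at h1
      rw [h1, h2] at h3
      exact (mul_eq_right.mp h3.symm)
    · rw [hb] at h1 h4
      rw [h4] at h2
      rw [Bool.not_true] at h1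
      rw [h1, h2] at h3
      exact (mul_eq_right.mp h3.symm)
  refine hx1 n (e.injective (PontryaginDual.ext fun χ => ?_))
  rw [he, he, hχ, map_one]

end Pool.Agent.H753R3.RP
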