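import Pool.Agent.H753R3.SC.Q

set_option autoImplicit false

namespace Pool.Agent.H753R3.RP

open Set Topology Filter Pool.Agent.H753R3.SC

theorem inf_of_precompact (G : Type) [CommGroup G] [TopologicalSpace G] [Infinite G]
    (hpre : ∀ U ∈ 𝓝 (1 : G), ∃ F : Finset G, ∀ g : G, ∃ f ∈ F, ∃ u ∈ U, g = f * u) :
    ∀ U ∈ 𝓝 (1 : G), U.Infinite := by
  intro U hU hfin
  obtain ⟨F, hF⟩ := hpre U hU
  have : (univ : Set G) ⊆ (fun p : G × G => p.1 * p.2) '' ((F : Set G) ×ˢ U) := by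
    intro g _
    obtain ⟨f, hf, u, hu, rfl⟩ := hF g
    exact ⟨(f, u), ⟨hf, hu⟩, rfl⟩
  exact infinite_univ (((F.finite_toSet.prod hfin).image _).subset this)

/-- a rapidly null sequence in a countable group of small character. -/
theorem rapid (G : Type) [CommGroup G] [TopologicalSpace G] [IsTopologicalGroup G] [Countable G]
    [Infinite G] (hinf : ∀ U ∈ 𝓝 (1 : G), U.Infinite)
    (𝓑 : Set (Set G)) (hcard : Cardinal.mk 𝓑 < pnum) (h1 : ∀ U ∈ 𝓑, U ∈ 𝓝 (1 : G))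
    (h2 : ∀ U ∈ 𝓝 (1 : G), ∃ V ∈ 𝓑, V ⊆ U) :
    ∃ x : ℕ → G, (∀ k, x k ≠ 1) ∧ ∀ U ∈ 𝓝 (1 : G), ∀ᶠ k in atTop, ∀ i ≤ k, x k ^ (2 ^ i) ∈ U := by
  classical
  obtain ⟨E⟩ : Nonempty (G × ℕ ≃ ℕ) := nonempty_equiv_of_countable
  let A : Set G × ℕ → Set ℕ := fun p =>
    E '' {q : G × ℕ | p.2 ≤ q.2 ∧ q.1 ≠ 1 ∧ ∀ i ≤ q.2, q.1 ^ (2 ^ i) ∈ p.1}
  set FF : Set (Set ℕ) := A '' (𝓑 ×ˢ (univ : Set ℕ)) with hFF
  have hc : Cardinal.mk FF < pnum := by
    refine lt_of_le_of_lt Cardinal.mk_image_le ?_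
    rw [Cardinal.mk_setProd, Cardinal.mk_univ]
    exact Cardinal.mul_lt_of_lt (le_of_lt taskQ') hcard (by rw [Cardinal.mk_nat]; exact taskQ')
  have hSF : ∀ S : Finset (Set ℕ), (∀ s ∈ S, s ∈ FF) → (⋂ s ∈ S, s).Infinite := by
    intro S hS
    have hch : ∀ s : Set ℕ, ∃ p : Set G × ℕ, s ∈ S → p.1 ∈ 𝓑 ∧ A p = s := by
      intro s
      by_cases hs : s ∈ S
      · obtain ⟨p, hp, hps⟩ := hS s hs
        exact ⟨p, fun _ => ⟨hp.1, hps⟩⟩
      · exact ⟨(univ, 0), fun h => absurd h hs⟩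
    choose p hp using hch
    set N : ℕ := S.sup fun s => (p s).2 with hN
    have hV : (⋂ s ∈ S, ⋂ i ∈ Finset.range (N + 1), {x : G | x ^ (2 ^ i) ∈ (p s).1}) ∈ 𝓝 (1 : G) := by
      rw [biInter_finset_mem]
      intro s hs
      rw [biInter_finset_mem]
      intro i _
      have hcont : ContinuousAt (fun x : G => x ^ (2 ^ i)) 1 := (continuous_pow _).continuousAt
      apply hcont
      show (p s).1 ∈ 𝓝 ((1 : G) ^ (2 ^ i))
      rw [one_pow]
      exact h1 _ (hp s hs).1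
    have hVi := (hinf _ hV).sdiff (finite_singleton (1 : G))
    have hinj : Function.Injective (fun x : G => E (x, N)) := fun a b h => by
      have := E.injective h
      exact (Prod.mk.injEq _ _ _ _ ▸ this).1
    refine ((hVi.image hinj.injOn)).mono ?_
    rintro _ ⟨x, ⟨hx, hx1⟩, rfl⟩
    rw [mem_iInter₂]
    intro s hs
    rw [← (hp s hs).2]
    refine ⟨(x, N), ⟨?_, hx1, fun i hi => ?_⟩, rfl⟩
    · exact Finset.le_sup (f := fun s => (p s).2) hs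
    · rw [mem_iInter₂] at hx
      have := hx s hs
      rw [mem_iInter₂] at this
      exact this i (Finset.mem_range.mpr (Nat.lt_succ_of_le hi))
  have hnot := notMem_of_lt_csInf hc (OrderBot.bddBelow _)
  obtain ⟨Z, hZi, hZs⟩ : ∃ Z : Set ℕ, Z.Infinite ∧ ∀ s ∈ FF, (Z \ s).Finite := by
    by_contra hno
    push Not at hno
    exact hnot ⟨FF, rfl, hSF, fun Z hZ => by
      obtain ⟨s, hs, h⟩ := hno Z hZ
      exact ⟨s, hs, h⟩⟩
  obtain ⟨U0, hU0, -⟩ := h2 univ univ_mem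
  have hZk : ∀ k, (Z ∩ A (U0, k)).Infinite := by
    intro k hfin
    refine hZi ((hfin.union (hZs (A (U0, k)) ⟨(U0, k), ⟨hU0, mem_univ _⟩, rfl⟩)).subset ?_)
    intro z hz
    by_cases h : z ∈ A (U0, k)
    · exact Or.inl ⟨hz, h⟩
    · exact Or.inr ⟨hz, h⟩
  have hg : ∀ k a : ℕ, ∃ b, b ∈ Z ∩ A (U0, k) ∧ a < b := by
    intro k a
    obtain ⟨b, hb, hab⟩ := (hZk k).exists_gt a
    exact ⟨b, hb, hab⟩
  choose g hg1 hg2 using hg
  let z : ℕ → ℕ := fun n => Nat.rec (g 0 0) (fun n a => g (n + 1) a) n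
  have hzm : ∀ n, z n ∈ Z ∩ A (U0, n) := by
    intro n
    cases n with
    | zero => exact hg1 0 0
    | succ n => exact hg1 (n + 1) (z n)
  have hmono : StrictMono z := strictMono_nat_of_lt_succ fun n => hg2 (n + 1) (z n)
  refine ⟨fun k => (E.symm (z k)).1, fun k => ?_, fun U hU => ?_⟩
  · obtain ⟨q, hq, hqz⟩ := (hzm k).2
    show (E.symm (z k)).1 ≠ 1
    rw [← hqz, E.symm_apply_apply]
    exact hq.2.1
  · obtain ⟨V, hV, hVU⟩ := h2 U hU
    have hfin := hZs (A (V, 0)) ⟨(V, 0), ⟨hV, mem_univ _⟩, rfl⟩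
    have hfin2 : {k | z k ∉ A (V, 0)}.Finite := by
      refine Set.Finite.of_finite_image (f := z) (hfin.subset ?_) hmono.injective.injOn
      rintro _ ⟨k, hk, rfl⟩
      exact ⟨(hzm k).1, hk⟩
    have hev : ∀ᶠ k in atTop, z k ∈ A (V, 0) := by
      rw [← Nat.cofinite_eq_atTop]
      exact hfin2
    filter_upwards [hev] with k hk i hi
    obtain ⟨q, hq, hqz⟩ := hk
    obtain ⟨q', hq', hqz'⟩ := (hzm k).2
    have : q = q' := E.injective (hqz.trans hqz'.symm)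
    subst this
    show (E.symm (z k)).1 ^ (2 ^ i) ∈ U
    rw [← hqz, E.symm_apply_apply]
    exact hVU (hq.2.2 i (hi.trans hq'.1))

end Pool.Agent.H753R3.RP
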